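import Pool.Agent.H73.KG.Stmts2
import Pool.Agent.H33.KG.BAS
import Pool.Agent.H91.Sym.P3a

/-!
# Project KG, module OSF: the telescoping lemma on one fibre
-/

set_option autoImplicit false
set_option linter.unusedSectionVars false

open MeasureTheory Set Filter Topology
open scoped ContDiff

namespace Pool.Agent.H73.KG

open Pool.Agent.H84 Pool.Agent.H84.Sym Pool.Agent.H84.Sym.P2x Pool.Agent.H84.Sym.C29
open Pool.Agent.H19.KL

namespace OSFx

variable {E : Type} [NormedAddCommGroup E] [InnerProductSpace ℝ E]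
    [FiniteDimensional ℝ E] [MeasurableSpace E] [BorelSpace E]
variable {ι : Type} [Fintype ι]

/-- the joint inequality on the gradient of `u`, in coordinates -/
theorem os_coord (b : OrthonormalBasis ι ℝ E) {V k q g g1 W u : E → ℝ} (hV : ContDiff ℝ 2 V)
    (hj : ∀ x η : E, 2 * g1 x + 2 * fderiv ℝ g x η - q x - 2 * fderiv ℝ k x η -
      fderiv ℝ (fderiv ℝ V) x η η ≤ W x) (x : E) :
    2 * g1 x + 2 * (∑ i, D (b i) u x * D (b i) g x) - q x -
      2 * (∑ i, D (b i) u x * D (b i) k x) -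
      (∑ i, ∑ j, D (b i) (D (b j) V) x * D (b i) u x * D (b j) u x) ≤ W x := by
  have h := hj x (∑ i, D (b i) u x • b i)
  have e1 : ∀ f : E → ℝ, fderiv ℝ f x (∑ i, D (b i) u x • b i) =
      ∑ i, D (b i) u x * D (b i) f x := by
    intro f
    rw [map_sum]
    refine Finset.sum_congr rfl fun i _ => ?_
    rw [map_smul]
    rfl
  have e2 : fderiv ℝ (fderiv ℝ V) x (∑ i, D (b i) u x • b i) (∑ i, D (b i) u x • b i) =
      ∑ i, ∑ j, D (b i) (D (b j) V) x * D (b i) u x * D (b j) u x := by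
    simp only [map_sum, map_smul, ContinuousLinearMap.sum_apply, ContinuousLinearMap.smul_apply,
      smul_eq_mul, Finset.mul_sum]
    rw [Finset.sum_comm]
    refine Finset.sum_congr rfl fun i _ => Finset.sum_congr rfl fun j _ => ?_
    rw [D_D hV]
    ring
  rw [e1, e1, e2] at h
  exact h

/-- the square of a centred coordinate -/
noncomputable def sqf (b : OrthonormalBasis ι ℝ E) (V : E → ℝ) (i : ι) (x : E) : ℝ :=
  (li (b i) x - mn V (b i)) ^ 2

theorem sqf_GC (b : OrthonormalBasis ι ℝ E) (V : E → ℝ) (i : ι) : GC (sqf b V i) :=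
  ((BAS_li (b i)).sub (GC.const _)).sq

theorem li_cd (e : E) : ContDiff ℝ 1 (li e) := contDiff_const.inner ℝ contDiff_id

theorem D_li (e v x : E) : D v (li e) x = inner ℝ e v := by
  have h : li e = fun y => (innerSL ℝ e) y := rfl
  unfold D
  rw [h, ContinuousLinearMap.fderiv]
  rfl

theorem sqf_cd (b : OrthonormalBasis ι ℝ E) (V : E → ℝ) (i : ι) : ContDiff ℝ 1 (sqf b V i) :=
  ((li_cd (b i)).sub contDiff_const).pow 2

theorem D_sqf (b : OrthonormalBasis ι ℝ E) (V : E → ℝ) (i : ι) (v x : E) :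
    D v (sqf b V i) x = 2 * (li (b i) x - mn V (b i)) * inner ℝ (b i) v := by
  have h1 : DifferentiableAt ℝ (li (b i)) x := (li_cd (b i)).differentiable (by norm_num) x
  have h2 : D v (li (b i)) x = inner ℝ (b i) v := D_li _ _ _
  have h3 : HasFDerivAt (sqf b V i)
      ((2 * (li (b i) x - mn V (b i))) • fderiv ℝ (li (b i)) x) x := by
    have h4 := (h1.hasFDerivAt.sub_const (mn V (b i))).pow 2
    have h5 : (2 • (li (b i) x - mn V (b i)) ^ (2 - 1)) • fderiv ℝ (li (b i)) x =
        (2 * (li (b i) x - mn V (b i))) • fderiv ℝ (li (b i)) x := by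
      congr 1
      simp
    rw [h5] at h4
    exact h4
  unfold D at h2 ⊢
  rw [h3.fderiv, ContinuousLinearMap.smul_apply, h2, smul_eq_mul]

/-- the identity for the squares of the coordinates -/
theorem green_sqf (b : OrthonormalBasis ι ℝ E) {V u : E → ℝ} {t C : ℝ} (hV : Pot V t C)
    (hp : IsProbabilityMeasure (mu V)) (hu : Tst u) (i : ι) (c : ℝ) :
    ∫ x, LO b V u x * (sqf b V i x - c) ∂(mu V) = -(2 * cv V (li (b i)) (D (b i) u)) := by
  classical
  have hV1 : ContDiff ℝ 1 V := hV.smooth.of_le (by norm_num)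
  have hu2 : ContDiff ℝ 2 u := by simpa using contDiff_infty.mp hu.1 2
  have hu1 : ContDiff ℝ 1 u := hu2.of_le (by norm_num)
  have hGu : GC (D (b i) u) := GC.of_BC (D_BC hu1 hu.2 (b i))
  rw [green_sub b hV1 hu (sqf_cd b V i) c]
  congr 1
  have e1 : ∀ x, (∑ j, D (b j) u x * D (b j) (sqf b V i) x) =
      2 * ((li (b i) x - mn V (b i)) * D (b i) u x) := by
    intro x
    rw [Finset.sum_eq_single i]
    · rw [D_sqf, real_inner_self_eq_norm_sq, b.norm_eq_one]
      ring
    · intro j _ hj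
      rw [D_sqf, b.inner_eq_zero hj.symm]
      ring
    · intro h
      exact absurd (Finset.mem_univ i) h
  simp only [e1]
  rw [integral_const_mul]
  congr 1
  have e2 : (fun x => (li (b i) x - mn V (b i)) * D (b i) u x) =
      fun x => li (b i) x * D (b i) u x - mn V (b i) * D (b i) u x := by
    funext x
    ring
  rw [e2, integral_sub (((BAS_li (b i)).mul hGu).integrable hV)
    ((hGu.integrable hV).const_mul _), integral_const_mul]
  rfl

theorem cv_sum {V : E → ℝ} {t C : ℝ} (hV : Pot V t C) (m : ι → ℝ) {F : ι → E → ℝ}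
    (hF : ∀ i, GC (F i)) {h : E → ℝ} (hh : GC h) :
    cv V (fun x => ∑ i, m i * F i x) h = ∑ i, m i * cv V (F i) h := by
  classical
  have hG : ∀ s : Finset ι, GC (fun z => ∑ i ∈ s, m i * F i z) := fun s =>
    GC.sum fun i => (GC.const (m i)).mul (hF i)
  have key : ∀ s : Finset ι, cv V (fun x => ∑ i ∈ s, m i * F i x) h =
      ∑ i ∈ s, m i * cv V (F i) h := by
    intro s
    induction s using Finset.induction_on with
    | empty =>
      simp only [Finset.sum_empty]
      unfold cv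
      simp
    | insert a s ha ih =>
      simp only [Finset.sum_insert ha]
      rw [BAS_add hV ((GC.const (m a)).mul (hF a)) (hG s) hh, BAS_smul, ih]
  exact key Finset.univ

/-- the main inequality for one test function `u` -/
theorem os_core (b : OrthonormalBasis ι ℝ E) {V k q g g1 W u : E → ℝ} {t C K δ : ℝ} {m : ι → ℝ}
    (hV : Pot V t C) (hp : IsProbabilityMeasure (mu V))
    (hHH : ∀ φ : E → ℝ, Tst φ → HH b m V φ ≤ K)
    (hk : ContDiff ℝ 1 k) (hkg : Gr k) (hg : ContDiff ℝ 1 g) (hgg : Gr g) (hq : GC q)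
    (hg1 : GC g1) (hW : GC W)
    (hj : ∀ x η : E, 2 * g1 x + 2 * fderiv ℝ g x η - q x - 2 * fderiv ℝ k x η -
      fderiv ℝ (fderiv ℝ V) x η η ≤ W x) (hδ : 0 < δ) (hδ1 : δ ≤ 1)
    (hu : Tst u)
    (hr : ∫ x, (LO b V u x - (k x - ∫ y, k y ∂(mu V))) ^ 2 ∂(mu V) ≤ δ ^ 2) :
    2 * ((∫ x, g1 x ∂(mu V)) - cv V (fun x => g x + ∑ i, m i * sqf b V i x) k) -
      ((∫ x, q x ∂(mu V)) - cv V k k) ≤ (∫ x, W x ∂(mu V)) + K +
      δ * (cv V (fun x => g x + ∑ i, m i * sqf b V i x)
        (fun x => g x + ∑ i, m i * sqf b V i x) + 2) := by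
  have hV1 : ContDiff ℝ 1 V := hV.smooth.of_le (by norm_num)
  have hu2 : ContDiff ℝ 2 u := by simpa using contDiff_infty.mp hu.1 2
  have hu3 : ContDiff ℝ 3 u := by simpa using contDiff_infty.mp hu.1 3
  have hu1 : ContDiff ℝ 1 u := hu2.of_le (by norm_num)
  set c := ∫ y, k y ∂(mu V) with hc
  set Φ : E → ℝ := fun x => g x + ∑ i, m i * sqf b V i x with hΦ
  have hGk : GC k := ⟨hk.continuous, hkg⟩
  have hGg : GC g := ⟨hg.continuous, hgg⟩
  have hGS : GC (fun x => ∑ i, m i * sqf b V i x) :=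
    GC.sum fun i => (GC.const (m i)).mul (sqf_GC b V i)
  have hGΦ : GC Φ := hGg.add hGS
  have hL := LO_BC b hV1 hu
  have hGL : GC (LO b V u) := GC.of_BC hL
  have hGkc : GC (fun x => k x - c) := hGk.sub (GC.const c)
  set d := ∫ y, Φ y ∂(mu V) with hd
  have hGΦd : GC (fun x => Φ x - d) := hGΦ.sub (GC.const d)
  have hD1 : ∀ i, BC (D (b i) u) := fun i => D_BC hu1 hu.2 (b i)
  have hDD : ∀ f : E → ℝ, ContDiff ℝ 1 f → BC (fun x => ∑ i, D (b i) u x * D (b i) f x) := by
    intro f hf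
    refine BC.sum fun i => BC.of_compact ((D_cont hu1 _).mul (D_cont hf _)) ?_
    exact (D_supp hu.2 _).mul_right
  have hDDU : ∀ i j, Continuous (D (b i) (D (b j) V)) := fun i j =>
    (contDiff_D (m := 0) (contDiff_D hV.smooth (m := 1) (by norm_num) (b j)) (by norm_num)
      (b i)).continuous
  have hVV : BC (fun x => ∑ i, ∑ j, D (b i) (D (b j) V) x * D (b i) u x * D (b j) u x) := by
    refine BC.sum fun i => BC.sum fun j => BC.of_compact
      (((hDDU i j).mul (D_cont hu1 _)).mul (D_cont hu1 _)) ?_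
    exact (D_supp hu.2 _).mul_left
  have i1 := hq.integrable hV
  have i2 := (hDD k hk).integrable (mu V)
  have i2' := (hDD g hg).integrable (mu V)
  have i3 := hVV.integrable (mu V)
  have i4 := hg1.integrable hV
  have i5 := hW.integrable hV
  -- integrate the joint inequality
  have h1 : 2 * (∫ x, g1 x ∂(mu V)) + 2 * (∫ x, (∑ i, D (b i) u x * D (b i) g x) ∂(mu V)) -
      (∫ x, q x ∂(mu V)) - 2 * (∫ x, (∑ i, D (b i) u x * D (b i) k x) ∂(mu V)) -
      (∫ x, (∑ i, ∑ j, D (b i) (D (b j) V) x * D (b i) u x * D (b j) u x) ∂(mu V)) ≤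
      ∫ x, W x ∂(mu V) := by
    have j1 : Integrable (fun x => 2 * g1 x + 2 * (∑ i, D (b i) u x * D (b i) g x)) (mu V) :=
      (i4.const_mul 2).add (i2'.const_mul 2)
    have j2 : Integrable (fun x => 2 * g1 x + 2 * (∑ i, D (b i) u x * D (b i) g x) - q x)
      (mu V) := j1.sub i1
    have j3 : Integrable (fun x => 2 * g1 x + 2 * (∑ i, D (b i) u x * D (b i) g x) - q x -
      2 * (∑ i, D (b i) u x * D (b i) k x)) (mu V) := j2.sub (i2.const_mul 2)
    have j4 : Integrable (fun x => 2 * g1 x + 2 * (∑ i, D (b i) u x * D (b i) g x) - q x -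
      2 * (∑ i, D (b i) u x * D (b i) k x) -
      (∑ i, ∑ j, D (b i) (D (b j) V) x * D (b i) u x * D (b j) u x)) (mu V) := j3.sub i3
    have h2 := integral_mono j4 i5 fun x => os_coord b (u := u) hV.smooth hj x
    refine le_trans (le_of_eq ?_) h2
    rw [integral_sub j3 i3, integral_sub j2 (i2.const_mul 2), integral_sub j1 i1,
      integral_add (i4.const_mul 2) (i2'.const_mul 2), integral_const_mul, integral_const_mul,
      integral_const_mul]
  have h2k := green_sub b hV1 hu hk c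
  have h2g := green_sub b hV1 hu hg 0
  have h3 := bochner_full b hV.smooth hu3 hu.2
  have h4 := hHH u hu
  unfold HH at h4
  have h5 : ∀ i, ∫ x, LO b V u x * (sqf b V i x) ∂(mu V) = -(2 * cv V (li (b i)) (D (b i) u)) := by
    intro i
    have := green_sqf b hV hp hu i 0
    simpa using this
  -- the integral of `LO u * Φ`
  have h0 : ∫ x, LO b V u x ∂(mu V) = 0 := by
    have h := green_sub b hV1 hu (f := fun _ => 1) contDiff_const 0
    have e : ∀ i x, D (b i) (fun _ : E => (1:ℝ)) x = 0 := by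
      intro i x
      unfold D
      simp
    simpa [e] using h
  have iL : Integrable (LO b V u) (mu V) := hGL.integrable hV
  have h6 : ∫ x, LO b V u x * Φ x ∂(mu V) = (∫ x, LO b V u x * g x ∂(mu V)) +
      ∑ i, m i * ∫ x, LO b V u x * sqf b V i x ∂(mu V) := by
    have e1 : (fun x => LO b V u x * Φ x) = fun x => LO b V u x * g x +
        ∑ i, m i * (LO b V u x * sqf b V i x) := by
      funext x
      rw [hΦ]
      simp only
      rw [mul_add, Finset.mul_sum]
      congr 1
      exact Finset.sum_congr rfl fun i _ => by ring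
    rw [e1, integral_add ((hGL.mul hGg).integrable hV)
      ((GC.sum fun i => (GC.const (m i)).mul (hGL.mul (sqf_GC b V i))).integrable hV),
      integral_finsetSum]
    · congr 1
      exact Finset.sum_congr rfl fun i _ => integral_const_mul _ _
    · intro i _
      exact ((GC.const (m i)).mul (hGL.mul (sqf_GC b V i))).integrable hV
  have h7 : ∫ x, LO b V u x * (Φ x - d) ∂(mu V) = ∫ x, LO b V u x * Φ x ∂(mu V) := by
    have e1 : (fun x => LO b V u x * (Φ x - d)) = fun x => LO b V u x * Φ x -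
        d * LO b V u x := by
      funext x
      ring
    rw [e1, integral_sub ((hGL.mul hGΦ).integrable hV) (iL.const_mul d), integral_const_mul, h0,
      mul_zero, sub_zero]
  -- the errors
  set r : E → ℝ := fun x => LO b V u x - (k x - c) with hrd
  have hGr : GC r := hGL.sub hGkc
  have h8 : ∫ x, LO b V u x * (Φ x - d) ∂(mu V) = cv V Φ k + ∫ x, r x * (Φ x - d) ∂(mu V) := by
    rw [BAS_cen hV hp hGΦ hGk, ← integral_add ((hGΦd.mul hGkc).integrable hV)
      ((hGr.mul hGΦd).integrable hV)]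
    refine integral_congr_ae (Eventually.of_forall fun x => ?_)
    simp only [hrd]
    ring
  have h9 : 2 * ∫ x, r x * (Φ x - d) ∂(mu V) ≤ δ * cv V Φ Φ + δ := by
    rw [BAS_cen hV hp hGΦ hGΦ]
    have hm : ∫ x, 2 * (δ * (r x * (Φ x - d))) ∂(mu V) ≤
        ∫ x, (δ ^ 2 * ((Φ x - d) * (Φ x - d)) + r x ^ 2) ∂(mu V) := by
      refine integral_mono (((hGr.mul hGΦd).integrable hV).const_mul δ |>.const_mul 2)
        ((((hGΦd.mul hGΦd).integrable hV).const_mul (δ ^ 2)).add (hGr.sq.integrable hV))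
        fun x => ?_
      simp only
      nlinarith [sq_nonneg (δ * (Φ x - d) - r x)]
    rw [integral_add (((hGΦd.mul hGΦd).integrable hV).const_mul (δ ^ 2)) (hGr.sq.integrable hV),
      integral_const_mul, integral_const_mul, integral_const_mul] at hm
    have h10 : ∫ x, r x ^ 2 ∂(mu V) ≤ δ ^ 2 := hr
    have h11 : δ * (2 * ∫ x, r x * (Φ x - d) ∂(mu V)) ≤
        δ * (δ * (∫ x, (Φ x - d) * (Φ x - d) ∂(mu V)) + δ) := by
      nlinarith [hm, h10]
    exact le_of_mul_le_mul_left h11 hδ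
  have h12 : ∫ x, r x ^ 2 ∂(mu V) = (∫ x, LO b V u x ^ 2 ∂(mu V)) -
      2 * (∫ x, LO b V u x * (k x - c) ∂(mu V)) + cv V k k := by
    have j1 : Integrable (fun x => LO b V u x ^ 2) (mu V) := (hGL.sq).integrable hV
    have j2 : Integrable (fun x => 2 * (LO b V u x * (k x - c))) (mu V) :=
      ((hGL.mul hGkc).integrable hV).const_mul 2
    have j3 : Integrable (fun x => LO b V u x ^ 2 - 2 * (LO b V u x * (k x - c))) (mu V) :=
      j1.sub j2
    have j4 : Integrable (fun x => (k x - c) * (k x - c)) (mu V) :=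
      (hGkc.mul hGkc).integrable hV
    rw [BAS_cen hV hp hGk hGk, ← hc, ← integral_const_mul, ← integral_sub j1 j2,
      ← integral_add j3 j4]
    refine integral_congr_ae (Eventually.of_forall fun x => ?_)
    simp only [hrd]
    ring
  have h13 : ∫ x, r x ^ 2 ∂(mu V) ≤ δ ^ 2 := hr
  have h14 : ∑ i, m i * ∫ x, LO b V u x * sqf b V i x ∂(mu V) =
      -(2 * ∑ i, m i * cv V (li (b i)) (D (b i) u)) := by
    rw [Finset.mul_sum, ← Finset.sum_neg_distrib]
    refine Finset.sum_congr rfl fun i _ => ?_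
    rw [h5 i]
    ring
  have h15 : (∫ x, LO b V u x * g x ∂(mu V)) =
      - ∫ x, (∑ i, D (b i) u x * D (b i) g x) ∂(mu V) := by
    simpa using h2g
  have h16 : δ ^ 2 ≤ δ := by nlinarith
  nlinarith [h1, h2k, h3, h4, h6, h7, h8, h9, h12, h13, h14, h15, h16]

end OSFx

open OSFx in
theorem osf_thm (E : Type) [NormedAddCommGroup E] [InnerProductSpace ℝ E]
    [FiniteDimensional ℝ E] [MeasurableSpace E] [BorelSpace E] : OSFStmt E := by
  rintro V t ⟨⟨C, hV⟩, hp⟩ ι _ b m K hHH k q g g1 W hk hkg hg hgg hq hg1 hW hj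
  have hGk : GC k := ⟨hk.continuous, hkg⟩
  have hGg : GC g := ⟨hg.continuous, hgg⟩
  have hGS : GC (fun x => ∑ i, m i * sqf b V i x) :=
    GC.sum fun i => (GC.const (m i)).mul (sqf_GC b V i)
  have e1 : cv V (fun x => g x + ∑ i, m i * sqf b V i x) k = cv V g k +
      ∑ i, m i * cv V (fun x => (li (b i) x - mn V (b i)) ^ 2) k := by
    rw [BAS_add hV hGg hGS hGk, cv_sum hV m (sqf_GC b V) hGk]
    rfl
  set M := cv V (fun x => g x + ∑ i, m i * sqf b V i x)
    (fun x => g x + ∑ i, m i * sqf b V i x) with hM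
  have hM0 : 0 ≤ M := BAS_nonneg hV hp (hGg.add hGS)
  refine le_of_forall_pos_le_add fun ε hε => ?_
  set δ := min 1 (ε / (M + 2)) with hδ
  have hδ0 : 0 < δ := lt_min one_pos (by positivity)
  have hδ1 : δ ≤ 1 := min_le_left _ _
  have hδM : δ * (M + 2) ≤ ε := by
    have h : δ ≤ ε / (M + 2) := min_le_right _ _
    have h' := mul_le_mul_of_nonneg_right h (by linarith : (0:ℝ) ≤ M + 2)
    rwa [div_mul_cancel₀ _ (by linarith : (M + 2) ≠ 0)] at h'
  obtain ⟨u, hu, hu'⟩ := dense_range_gr b hV (h := fun x => -k x) hk.neg (by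
      refine Gr.of_le hkg fun x => ?_
      rw [abs_neg]) (c := -∫ y, k y ∂(mu V)) (by
        rw [probReal_univ, mul_one, integral_neg]) (ε := δ ^ 2) (by positivity)
  have hr : ∫ x, (LO b V u x - (k x - ∫ y, k y ∂(mu V))) ^ 2 ∂(mu V) ≤ δ ^ 2 := by
    refine le_trans (le_of_eq ?_) hu'
    refine integral_congr_ae (Eventually.of_forall fun x => ?_)
    simp only
    ring
  have h := os_core b hV hp hHH hk hkg hg hgg hq hg1 hW hj hδ0 hδ1 hu hr
  rw [e1] at h
  rw [← hM] at h
  linarith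

end Pool.Agent.H73.KG
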